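import Pool.Agent.H.MP_4c145a_lc.C

set_option autoImplicit false
set_option linter.unusedSimpArgs false
set_option linter.unusedVariables false

namespace Pool.Agent.Results.MP_9d0328_lc.Forb

open Relation Pool.Agent.H.MP_4c145a_lc Pool.Agent.Lib.helper21.PR

structure FG (σ : Type) where
  V : Set σ
  T : Set σ
  P : Set (σ × List σ × Set σ)
  S : σ
  fV : V.Finite
  fP : P.Finite
  hT : T ⊆ V
  hS : S ∈ V \ T
  hP : ∀ r ∈ P, r.1 ∈ V \ T ∧ (∀ a ∈ r.2.1, a ∈ V) ∧ r.2.2 ⊆ V \ T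

def Step {σ : Type} (P : Set (σ × List σ × Set σ)) (u v : List σ) : Prop :=
  ∃ l r A x F, (A, x, F) ∈ P ∧ u = l ++ A :: r ∧ v = l ++ x ++ r ∧ ∀ a ∈ u, a ∉ F

def FG.L {σ : Type} (G : FG σ) : Set (List σ) :=
  {w | (∀ a ∈ w, a ∈ G.T) ∧ ReflTransGen (Step G.P) [G.S] w}

def FG.Propagating {σ : Type} (G : FG σ) : Prop := ∀ r ∈ G.P, r.2.1 ≠ []

def MS {σ : Type} (P : Set (σ × List σ × Set σ)) (U V : Multiset σ) : Prop :=
  ∃ W A x F, (A, x, F) ∈ P ∧ U = A ::ₘ W ∧ V = ↑x + W ∧ A ∉ F ∧ ∀ a ∈ W, a ∉ F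

theorem lift {σ : Type} {P : Set (σ × List σ × Set σ)} {u : List σ} {V : Multiset σ} :
    (∃ w, ReflTransGen (Step P) u w ∧ ↑w = V) ↔ ReflTransGen (MS P) u V := by
  have e : ∀ (l r x : List σ), ((l ++ x ++ r : List σ) : Multiset σ) = x + ↑(l ++ r) := fun l r x => by
    simp only [← Multiset.coe_add]; abel
  constructor
  · rintro ⟨w, h, rfl⟩
    refine h.lift (fun l : List σ => (l : Multiset σ)) ?_
    rintro _ _ ⟨l, r, A, x, F, h, rfl, rfl, q⟩
    exact ⟨↑(l ++ r), A, x, F, h, by simp, e .., q _ (by simp),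
      fun a h => q a (by simpa using (List.mem_append.1 h).imp_right .inr)⟩
  · intro h
    induction h with
    | refl => exact ⟨u, .refl, rfl⟩
    | tail _ q ih =>
      obtain ⟨w, h, rfl⟩ := ih
      obtain ⟨W, A, x, F, q, q1, rfl, q2, q3⟩ := q
      obtain ⟨l, r, rfl⟩ := List.append_of_mem (show A ∈ w by rw [← Multiset.mem_coe, q1]; simp)
      obtain rfl : W = ↑(l ++ r) := by rw [← Multiset.cons_inj_right A, ← q1]; simp
      refine ⟨_, h.tail ⟨l, r, A, x, F, q, rfl, rfl, fun a k => ?_⟩, e ..⟩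
      rw [← Multiset.mem_coe, q1] at k
      exact (Multiset.mem_cons.1 k).elim (· ▸ q2) (q3 a)

open Sy

attribute [-simp] Sum.exists Sum.forall

inductive Ru (S : Set (List Pr)) (C : Set R) : Sy × List Sy × Set Sy → Prop
  | sil {k k'} : k ∈ S → Sil k k' → Ru S C (ctl k false, [ctl k' false], {mrk})
  | inc {c k} : .inc c :: k ∈ S → Ru S C (ctl (.inc c :: k) false, [ctl k false, tok c], {mrk})
  | dec {c k} : .dec c :: k ∈ S → Ru S C (ctl (.dec c :: k) false, [ctl k true], ∅)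
  | cl {k} : k ∈ S → Ru S C (ctl k true, [ctl k false], {mrk})
  | zero {c k} : .zero c :: k ∈ S →
      Ru S C (ctl (.zero c :: k) false, [ctl k false], insert mrk (tok '' C ∩ {tok c}))
  | fin : Ru S C (ctl [] false, [], insert mrk (tok '' C))
  | mk {c} : c ∈ C → Ru S C (tok c, [mrk],
      insert mrk {x | ∃ k ∈ S, ∃ b, x = ctl k b ∧ ¬ (b = false ∧ ∃ k', k = .dec c :: k')})
  | er : Ru S C (mrk, [], {x | ∃ k ∈ S, x = ctl k false})
  | out {c} : c ∈ C → Ru S C (tok c, [trm c], {x | ∃ k ∈ S, ∃ b, x = ctl k b ∧ ¬ (b = false ∧ k = [])})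

theorem sim (p : Pr) : ∃ G : FG Sy, ∀ v : Multiset R,
    (∃ w ∈ G.L, (w : Multiset Sy) = v.map trm) ↔ Sem True p 0 v := by
  obtain ⟨S, C, f1, f2, h0, h1, h2, h3⟩ := H.MP_4c145a_lc.ctl p
  let V : Set Sy := Set.image2 ctl S Set.univ ∪ (tok '' C ∪ insert mrk (trm '' C))
  have fV : V.Finite := (f1.image2 _ Set.finite_univ).union ((f2.image _).union ((f2.image _).insert _))
  have hP : ∀ r, Ru S C r → r.2.1.length ≤ 2 ∧ r.1 ∈ V \ trm '' C ∧ (∀ a ∈ r.2.1, a ∈ V) ∧
      r.2.2 ⊆ V \ trm '' C := by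
    rintro _ (⟨a, b⟩ | a | a | a | a | _ | a | _ | a)
    · simp [V, a, h1 _ a _ b]
    · simp [V, a, h2 _ _ a, h3 _ _ a]
    · simp [V, a, h2 _ _ a]
    · simp [V, a]
    · exact ⟨by simp, by simp [V, a], by simp [V, h2 _ _ a],
        by rintro _ (rfl | ⟨⟨c, e, rfl⟩, -⟩) <;> simp [V, *]⟩
    · exact ⟨by simp, by simp [V, h2 _ _ h0], by simp, by rintro _ (rfl | ⟨c, e, rfl⟩) <;> simp [V, *]⟩
    · exact ⟨by simp, by simp [V, a], by simp [V, a],
        by rintro _ (rfl | ⟨k, e, b, rfl, -⟩) <;> simp [V, *]⟩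
    · exact ⟨by simp, by simp [V], by simp, by rintro _ ⟨k, e, rfl⟩; simp [V, e]⟩
    · exact ⟨by simp, by simp [V, a], by simp [V, a], by rintro _ ⟨k, e, b, rfl, -⟩; simp [V, e]⟩
  have := fV.to_subtype
  refine ⟨⟨V, trm '' C, Ru S C, ctl [p] false, fV, (fV.prod (((List.finite_length_le V 2).image
    (List.map Subtype.val)).prod fV.finite_subsets)).subset fun r h => ⟨(hP r h).2.1.1,
      ⟨r.2.1.pmap Subtype.mk (hP r h).2.2.1, by simpa using (hP r h).1, by simp [List.map_pmap]⟩,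
      (hP r h).2.2.2.trans Set.sdiff_subset⟩, fun _ h => .inr (.inr (.inr h)), by simp [V, h0],
    fun r h => (hP r h).2⟩, fun v => ?_⟩
  rw [← run]
  refine ⟨fun ⟨w, ⟨q1, q2⟩, q3⟩ => ?_, fun q => ?_⟩
  · have q4 := lift.1 ⟨w, q2, q3⟩
    have : ∀ U, ReflTransGen (MS (Ru S C)) (↑[ctl [p] false]) U → (∃ k ∈ S, ∃ (b : Bool)
        (l l' : Multiset R), (∀ c ∈ l, c ∈ C) ∧ (l' ≠ 0 → k = [] ∧ b = false) ∧
        (U = ctl k b ::ₘ (l.map tok + l'.map trm) ∧ ReflTransGen M ([p], 0) (k, l + l') ∨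
         U = ctl k b ::ₘ mrk ::ₘ (l.map tok + l'.map trm) ∧ ∃ k', ReflTransGen M ([p], 0) (k', l + l') ∧
          (b = true ∧ k' = k ∨ b = false ∧ ∃ c, k = .dec c :: k'))) ∨
        ∃ l : Multiset R, U = l.map trm ∧ ReflTransGen M ([p], 0) ([], l) := fun U q => by
      induction q with
      | refl => exact .inl ⟨_, h0, false, 0, 0, by simp, by simp, .inl ⟨rfl, .refl⟩⟩
      | tail _ q ih =>
        obtain ⟨W, A, x, F, q, rfl, rfl, q5, q6⟩ := q
        have z : ∀ {k b k' b' X}, (∀ k b, ctl k b ∉ X) → ctl k b ::ₘ W = ctl k' b' ::ₘ X →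
            k = k' ∧ b = b' ∧ W = X := fun a e => by
          obtain ⟨⟩ := (Multiset.mem_cons.1 (e ▸ Multiset.mem_cons_self _ _)).resolve_right (a _ _)
          exact ⟨rfl, rfl, (Multiset.cons_inj_right _).1 e⟩
        obtain ⟨k, hk, b, l, l', a1, a2, ⟨e, a3⟩ | ⟨e, k', a3, a4⟩⟩ | ⟨l, e, a3⟩ := ih
        · have y : ∀ c, tok c ::ₘ W = ctl k b ::ₘ (l.map tok + l'.map trm) → ∃ m, l = c ::ₘ m ∧
              W = ctl k b ::ₘ (m.map tok + l'.map trm) := fun c e => by
            obtain ⟨m, rfl⟩ := Multiset.exists_cons_of_mem (show c ∈ l by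
              have := e ▸ Multiset.mem_cons_self (tok c) W; simpa using this)
            refine ⟨m, rfl, (Multiset.cons_inj_right (tok c)).1 (e.trans ?_)⟩
            simp [Multiset.cons_swap]
          cases q with
          | sil _ a =>
            obtain ⟨rfl, rfl, rfl⟩ := z (by simp) e
            exact .inl ⟨_, h1 _ hk _ a, false, l, l', a1, fun t => (by cases (a2 t).1; cases a),
              .inl ⟨rfl, a3.tail (.sil _ a)⟩⟩
          | @inc c =>
            obtain ⟨rfl, rfl, rfl⟩ := z (by simp) e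
            exact .inl ⟨_, h2 _ _ hk, false, c ::ₘ l, l', by simpa [h3 _ _ hk] using a1,
              fun t => (by cases (a2 t).1), .inl ⟨by simp [← Multiset.cons_coe], a3.tail (by
                rw [Multiset.cons_add, ← Multiset.singleton_add, add_comm ({c} : Multiset R)]; exact .inc ..)⟩⟩
          | dec =>
            obtain ⟨rfl, rfl, rfl⟩ := z (by simp) e
            exact .inl ⟨_, h2 _ _ hk, true, l, l', a1, fun t => (by cases (a2 t).1),
              .inl ⟨rfl, a3.tail (.skip ..)⟩⟩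
          | cl =>
            obtain ⟨rfl, rfl, rfl⟩ := z (by simp) e
            exact .inl ⟨_, hk, false, l, l', a1, fun t => (by cases (a2 t).2), .inl ⟨rfl, a3⟩⟩
          | @zero c =>
            obtain ⟨rfl, rfl, rfl⟩ := z (by simp) e
            obtain rfl : l' = 0 := by_contra fun t => by cases (a2 t).1
            exact .inl ⟨_, h2 _ _ hk, false, l, 0, a1, by simp, .inl ⟨rfl, a3.tail (.zero _ _ _
              fun t => q6 (tok c) (by simpa using t) (by simp [a1 c (by simpa using t)]))⟩⟩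
          | fin =>
            obtain ⟨rfl, rfl, rfl⟩ := z (by simp) e
            obtain rfl : l = 0 := Multiset.eq_zero_of_forall_notMem fun c t =>
              q6 (tok c) (by simp [t]) (by simp [a1 c t])
            exact .inr ⟨l', by simp, by simpa using a3⟩
          | @mk c =>
            obtain ⟨m, rfl, rfl⟩ := y c e
            obtain ⟨rfl, k', rfl⟩ : b = false ∧ ∃ k', k = .dec c :: k' :=
              by_contra fun t => q6 (ctl k b) (by simp) (.inr ⟨k, hk, b, rfl, t⟩)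
            refine .inl ⟨_, hk, false, m, l', fun c t => a1 c (by simp [t]), a2, .inr
              ⟨by simp [← Multiset.cons_coe, Multiset.cons_swap], k', a3.tail ?_, .inr ⟨rfl, c, rfl⟩⟩⟩
            rw [Multiset.cons_add, ← Multiset.singleton_add, add_comm ({c} : Multiset R)]; exact .dec ..
          | er => have := e ▸ Multiset.mem_cons_self mrk W; simp at this
          | @out c =>
            obtain ⟨m, rfl, rfl⟩ := y c e
            obtain ⟨rfl, rfl⟩ : b = false ∧ k = [] :=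
              by_contra fun t => q6 (ctl k b) (by simp) ⟨k, hk, b, rfl, t⟩
            exact .inl ⟨_, hk, false, m, c ::ₘ l', fun c t => a1 c (by simp [t]), by simp, .inl
              ⟨by simp [← Multiset.cons_coe, Multiset.cons_swap], by simpa using a3⟩⟩
        · have y : mrk ∉ F ∨ A = mrk := by
            by_cases t : A = mrk
            · exact .inr t
            · exact .inl (q6 _ (by simpa [Ne.symm t] using
                (e ▸ (by simp) : mrk ∈ A ::ₘ W)))
          cases q with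
          | dec =>
            obtain ⟨rfl, rfl, rfl⟩ := z (by simp) e
            obtain ⟨-, _, ⟨⟩⟩ := a4.resolve_left (by simp)
            exact .inl ⟨_, h2 _ _ hk, true, l, l', a1, fun t => (by cases (a2 t).1),
              .inr ⟨rfl, _, a3, .inl ⟨rfl, rfl⟩⟩⟩
          | er =>
            obtain rfl : W = ctl k b ::ₘ (l.map tok + l'.map trm) :=
              (Multiset.cons_inj_right mrk).1 (e.trans (Multiset.cons_swap ..))
            obtain ⟨rfl, rfl⟩ := a4.resolve_right fun t => q6 (ctl k b) (by simp) ⟨k, hk, by rw [t.1]⟩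
            exact .inl ⟨_, hk, true, l, l', a1, a2, .inl ⟨by simp, a3⟩⟩
          | @out c =>
            obtain ⟨rfl, rfl⟩ : b = false ∧ k = [] := by_contra fun t => q6 (ctl k b)
              (by simpa using (e ▸ (by simp) : ctl k b ∈ tok c ::ₘ W)) ⟨k, hk, b, rfl, t⟩
            simp at a4
          | _ => simp at y
        · have := (hP _ q).2.1.2
          have t : A ∈ l.map trm := e ▸ Multiset.mem_cons_self ..
          cases q <;> simp at t
    obtain ⟨k, -, b, l, l', -, -, ⟨e, -⟩ | ⟨e, -⟩⟩ | ⟨l, e, a⟩ := this _ q4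
    · simpa using (e ▸ (by simp) : ctl k b ∈ v.map trm)
    · simpa using (e ▸ (by simp) : ctl k b ∈ v.map trm)
    · rwa [Multiset.map_injective (fun _ _ => trm.inj) e]
  · have : ∀ x, ReflTransGen M ([p], 0) x → x.1 ∈ S ∧ (∀ c ∈ x.2, c ∈ C) ∧
        ReflTransGen (MS (Ru S C)) (↑[ctl [p] false]) (ctl x.1 false ::ₘ x.2.map tok) := fun x q => by
      induction q with
      | refl => exact ⟨h0, by simp, .refl⟩
      | tail _ q ih =>
        obtain ⟨hk, e2, e3⟩ := ih
        cases q with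
        | sil _ a => exact ⟨h1 _ hk _ a, e2, e3.tail ⟨_, _, _, _, .sil hk a, rfl, rfl, by simp, by simp⟩⟩
        | inc c =>
          exact ⟨h2 _ _ hk, by simpa [h3 _ _ hk, or_imp, forall_and] using e2, e3.tail
            ⟨_, _, _, _, .inc hk, rfl, by simp [← Multiset.cons_coe, add_comm], by simp, by simp⟩⟩
        | skip c =>
          exact ⟨h2 _ _ hk, e2, (e3.tail ⟨_, _, _, _, .dec hk, rfl, rfl, by simp, by simp⟩).tail
            ⟨_, _, _, _, .cl (h2 _ _ hk), rfl, rfl, by simp, by simp⟩⟩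
        | zero c _ _ a =>
          exact ⟨h2 _ _ hk, e2, e3.tail ⟨_, _, _, _, .zero hk, rfl, rfl, by simp, by
            simp; rintro _ t _ - rfl rfl; exact a t⟩⟩
        | dec c k u =>
          refine ⟨h2 _ _ hk, fun a h => e2 a (by simp [h]), (((e3.tail
            ⟨ctl (.dec c :: k) false ::ₘ u.map tok, _, _, _, .mk (e2 c (by simp)), ?_, rfl, by simp, ?_⟩).tail
            ⟨mrk ::ₘ u.map tok, _, _, _, .dec hk, ?_, rfl, by simp, by simp⟩).tail
            ⟨ctl k true ::ₘ u.map tok, _, _, _, .er, ?_, rfl, by simp, by simp⟩).tail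
            ⟨u.map tok, _, _, _, .cl (h2 _ _ hk), by simp, rfl, by simp, by simp⟩⟩
          · simp [add_comm _ ({tok c} : Multiset Sy), Multiset.cons_swap]
          · simp; rintro _ - rfl; simp
          · simp [← Multiset.cons_coe, Multiset.cons_swap]
          · simp [← Multiset.cons_coe, Multiset.cons_swap]
    obtain ⟨h4, e2, e3⟩ := this _ q
    have : ∀ l l' : Multiset R, (∀ c ∈ l, c ∈ C) → ReflTransGen (MS (Ru S C))
        (ctl [] false ::ₘ (l.map tok + l'.map trm)) ((l + l').map trm) := fun l => by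
      induction l using Multiset.induction with
      | empty => exact fun l' _ => .single ⟨_, _, _, _, .fin, rfl, by simp, by simp, by simp⟩
      | cons c l ih =>
        refine fun l' h => .head ⟨ctl [] false ::ₘ (l.map tok + l'.map trm), _, _, _,
          Ru.out (h c (by simp)), by simp [Multiset.cons_swap], rfl, by simp, ?_⟩
          (by simpa [← Multiset.cons_coe, Multiset.cons_swap] using
            ih (c ::ₘ l') fun c t => h c (by simp [t]))
        simp [or_imp, forall_and]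
    obtain ⟨w, a, b⟩ := lift.2 (e3.trans (by simpa using this v 0 e2))
    exact ⟨w, ⟨fun x t => by
      obtain ⟨c, t', rfl⟩ := Multiset.mem_map.1 (b ▸ Multiset.mem_coe.2 t); exact ⟨c, e2 c t', rfl⟩, a⟩, b⟩

attribute [local irreducible] Primrec Computable

theorem result : ∃ (σ : Type) (_ : Infinite σ) (G : FG σ), ∀ G' : FG σ, G'.Propagating →
    G'.L \ {[]} ≠ G.L \ {[]} := by
  classical
  obtain ⟨_⟩ := nonempty_denumerable Sy
  let g : List (Sy × List Sy × List Sy) → List Sy → List Sy → List (List Sy) :=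
    fun P V u => ((List.range u.length).flatMap fun i => (P.filter fun r => u[i]? = some r.1 ∧
      ∀ a ∈ u, ¬ a ∈ r.2.2).map fun r => u.take i ++ r.2.1 ++ u.drop (i + 1)).filter
        fun v => ∀ a ∈ v, a ∈ V
  obtain ⟨f, f1, f2⟩ := diag (C := List Sy × List (Sy × List Sy × List Sy) × List Sy)
    (fun c u => g c.2.1 c.2.2 u) (·.1) (·.2.2) (by simp only [g]; fun_prop) (by fun_prop) (by fun_prop)
    (trm (.inl 0)) (trm (.inr 2)) (trm B)
  obtain ⟨p, hp⟩ := slice f1
  obtain ⟨G, hG⟩ := sim p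
  refine ⟨Sy, inferInstance, G, fun G' pr e => ?_⟩
  let P := G'.fP.toFinset.toList.attach.map fun r => (r.1.1, r.1.2.1, ((G'.fV.subset
    ((G'.hP r.1 (by simpa using r.2)).2.2.trans Set.sdiff_subset)).toFinset.toList))
  have k : ∀ u v, v ∈ g P G'.fV.toFinset.toList u ↔ Step G'.P u v ∧ ∀ a ∈ v, a ∈ G'.V := fun u v => by
    simp only [g, List.mem_flatMap, List.mem_map, List.mem_filter, P, decide_eq_true_eq,
      Finset.mem_toList, Set.Finite.mem_toFinset, List.mem_range]
    refine and_congr_left fun _ => ⟨?_, ?_⟩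
    · rintro ⟨i, h, _, ⟨⟨⟨⟨A, x, F⟩, r⟩, -, rfl⟩, q, q'⟩, rfl⟩
      refine ⟨_, _, A, x, F, by simpa using r, ?_, rfl, by simpa using q'⟩
      obtain rfl : u[i] = A := by simpa [h] using q
      simp
    · rintro ⟨l, r, A, x, F, h, rfl, rfl, q⟩
      exact ⟨l.length, by simp, _, ⟨⟨⟨_, by simpa using h⟩, by simp, rfl⟩, by simp, by simpa using q⟩,
        by simp⟩
  have k' : ∀ w, ReflTransGen (fun u v => Step G'.P u v ∧ ∀ a ∈ v, a ∈ G'.V) [G'.S] w ↔
      ReflTransGen (Step G'.P) [G'.S] w := fun w => ⟨ReflTransGen.mono (fun _ _ h => And.left h) _ _, fun h => by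
    have : (∀ a ∈ w, a ∈ G'.V) ∧
        ReflTransGen (fun u v => Step G'.P u v ∧ ∀ a ∈ v, a ∈ G'.V) [G'.S] w := by
      induction h with
      | refl => exact ⟨by simpa using G'.hS.1, .refl⟩
      | @tail u v _ q ih =>
        have : ∀ a ∈ v, a ∈ G'.V := by
          obtain ⟨l, r, A, x, F, h, rfl, rfl, -⟩ := q
          simp only [List.forall_mem_append, List.forall_mem_cons] at ih ⊢
          exact ⟨⟨ih.1.1, (G'.hP _ h).2.1⟩, ih.1.2.2⟩
        exact ⟨this, ih.2.tail ⟨q, this⟩⟩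
    exact this.2⟩
  let H := trm (.inl 0) ∈ G'.T ∧ trm (.inr 2) ∈ G'.T ∧ trm B ∈ G'.T
  obtain ⟨n, n0, hn⟩ := f2 (if H then [G'.S] else [], P, G'.fV.toFinset.toList) fun u v h => by
    obtain ⟨⟨l, r, A, x, F, h', rfl, rfl, -⟩, q⟩ := (k u v).1 h
    exact ⟨by have := List.length_pos_iff.2 (pr _ h'); simp at this ⊢; omega, by simpa using q⟩
  simp only [k, ms (a := .inl 0) (b := .inr 2) (c := B) nofun nofun nofun, ← hp, ← hG] at hn
  have m : ∀ {w : List Sy}, (w : Multiset Sy) = Multiset.map trm (n • {.inl 0} + n • {.inr 2} + n • {B}) →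
      ∀ a, a ∈ w ↔ (a = trm (.inl 0) ∨ a = trm (.inr 2)) ∨ a = trm B := fun q a => by
    simp [← Multiset.mem_coe, q, Multiset.map_nsmul, Multiset.mem_nsmul, n0]
  refine iff_not_self (hn.trans (not_congr ⟨fun ⟨w, q1, q2⟩ => ?_, fun ⟨w, q1, q2⟩ => ?_⟩))
  · have t : w ≠ [] := by rintro rfl; simpa using m q2 (trm B)
    split_ifs at q1 with c
    · exact ⟨w, (e.le ⟨⟨fun a h => by rcases (m q2 a).1 h with (rfl | rfl) | rfl; exacts
        [c.1, c.2.1, c.2.2], (k' w).1 q1⟩, t⟩).1, q2⟩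
    · obtain rfl | ⟨_, ⟨⟨l, r, _, _, _, -, q, -⟩, -⟩, -⟩ := q1.cases_head
      exacts [(t rfl).elim, by simp at q]
  · have := (e.ge ⟨q1, by rintro rfl; simpa using m q2 (trm B)⟩).1
    exact ⟨w, by rw [if_pos ⟨this.1 _ ((m q2 _).2 (by simp)), this.1 _ ((m q2 _).2 (by simp)),
      this.1 _ ((m q2 _).2 (by simp))⟩]; exact (k' w).2 this.2, q2⟩

end Pool.Agent.Results.MP_9d0328_lc.Forb
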